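import Pool.Agent.Q264.KS.Stm4

/-!
# FA of the KS project
-/

set_option autoImplicit false

namespace Pool.Agent.Q154.KS

open Module Filter Topology Pool.Agent.Q264.KS

universe u

section
variable {X : Type u} [NormedAddCommGroup X] [NormedSpace ℝ X] [FiniteDimensional ℝ X] {n : ℕ}

lemma cont_dt (b : Basis (Fin n) ℝ X) : Continuous (dt b) := by
  unfold dt
  refine Continuous.matrix_det ?_
  refine continuous_matrix fun i j => ?_
  show Continuous fun h : Fin n → X →L[ℝ] ℝ => h i (b j)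
  exact (ContinuousLinearMap.apply ℝ ℝ (b j)).continuous.comp (continuous_apply i)

lemma exists_pos (b : Basis (Fin n) ℝ X) :
    ∃ h : Fin n → X →L[ℝ] ℝ, (∀ i, ‖h i‖ ≤ 1) ∧ 0 < dt b h := by
  let c : Fin n → X →L[ℝ] ℝ := fun i => LinearMap.toContinuousLinearMap (b.coord i)
  let t : ℝ := (1 + ∑ i, ‖c i‖)⁻¹
  have h0 : 0 ≤ ∑ i, ‖c i‖ := Finset.sum_nonneg fun i _ => norm_nonneg _
  have ht : 0 < t := inv_pos.2 (by linarith)
  refine ⟨fun i => t • c i, fun i => ?_, ?_⟩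
  · rw [norm_smul, Real.norm_of_nonneg ht.le]
    have h1 : ‖c i‖ ≤ ∑ i, ‖c i‖ :=
      Finset.single_le_sum (f := fun i => ‖c i‖) (fun i _ => norm_nonneg _) (Finset.mem_univ i)
    have h2 : t * (1 + ∑ i, ‖c i‖) = 1 := inv_mul_cancel₀ (by linarith)
    nlinarith
  · have h1 : dt b (fun i => t • c i) = t ^ n := by
      unfold dt
      have h2 : (Matrix.of fun i j => (t • c i) (b j)) = t • (1 : Matrix (Fin n) (Fin n) ℝ) := by
        ext i j
        simp [c, Matrix.one_apply, Finsupp.single_apply, eq_comm]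
      rw [h2, Matrix.det_smul]
      simp
    rw [h1]
    positivity

lemma exists_one (b : Basis (Fin n) ℝ X) (h : Fin n → X →L[ℝ] ℝ) (hd : dt b h ≠ 0) :
    ∃ s : X, ∀ k, h k s = 1 := by
  let M : Matrix (Fin n) (Fin n) ℝ := Matrix.of fun i j => h i (b j)
  have hM : IsUnit M.det := isUnit_iff_ne_zero.2 hd
  let x : Fin n → ℝ := M⁻¹.mulVec fun _ => 1
  have hx : M.mulVec x = fun _ => 1 := by
    show M.mulVec (M⁻¹.mulVec fun _ => 1) = _
    rw [Matrix.mulVec_mulVec, Matrix.mul_nonsing_inv M hM, Matrix.one_mulVec]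
  refine ⟨∑ j, x j • b j, fun k => ?_⟩
  have := congrFun hx k
  rw [map_sum]
  rw [← this]
  simp [Matrix.mulVec, dotProduct, M, mul_comm]

end

theorem t_FA : S_FA.{u} := by
  intro X _ _ _ n b hn
  have hpr : ProperSpace (Fin n → X →L[ℝ] ℝ) := FiniteDimensional.proper_real _
  have hK : IsCompact (Metric.closedBall (0 : Fin n → X →L[ℝ] ℝ) 1) := isCompact_closedBall _ _
  have hmem : ∀ h : Fin n → X →L[ℝ] ℝ,
      h ∈ Metric.closedBall (0 : Fin n → X →L[ℝ] ℝ) 1 ↔ ∀ i, ‖h i‖ ≤ 1 := by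
    intro h
    rw [mem_closedBall_zero_iff, pi_norm_le_iff_of_nonneg zero_le_one]
  obtain ⟨h₀, hh₀, hmax⟩ := hK.exists_isMaxOn ⟨0, by simp⟩ (cont_dt b).continuousOn
  have hmax' : ∀ h : Fin n → X →L[ℝ] ℝ, (∀ i, ‖h i‖ ≤ 1) → dt b h ≤ dt b h₀ :=
    fun h hh => hmax ((hmem h).2 hh)
  have hd : 0 < dt b h₀ := by
    obtain ⟨h, h1, h2⟩ := exists_pos b
    exact h2.trans_le (hmax' h h1)
  obtain ⟨s, hs⟩ := exists_one b h₀ hd.ne'
  have hn0 : n ≠ 0 := by omega
  refine ⟨{p | ‖p‖ ^ n < dt b h₀ ∧ dt b h₀ < FF b p h₀}, ?_, ?_, ?_⟩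
  · refine IsOpen.and (isOpen_lt (by fun_prop) continuous_const) (isOpen_lt continuous_const ?_)
    unfold FF
    fun_prop
  · let c : ℝ := min 1 (dt b h₀) / (2 * (1 + ‖s‖))
    have hm : 0 < min 1 (dt b h₀) := lt_min one_pos hd
    have hs0 : 0 ≤ ‖s‖ := norm_nonneg _
    have hc : 0 < c := by positivity
    have h1 : ‖c • s‖ < min 1 (dt b h₀) := by
      rw [norm_smul, Real.norm_of_nonneg hc.le]
      show min 1 (dt b h₀) / (2 * (1 + ‖s‖)) * ‖s‖ < _
      rw [div_mul_eq_mul_div, div_lt_iff₀ (by positivity)]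
      nlinarith
    refine ⟨c • s, ?_, ?_⟩
    · refine lt_of_le_of_lt (pow_le_of_le_one (norm_nonneg _) (h1.trans_le (min_le_left _ _)).le hn0) ?_
      exact h1.trans_le (min_le_right _ _)
    · unfold FF
      have h2 : ∏ i, h₀ i (c • s) = c ^ n := by
        simp [hs]
      rw [h2]
      have : 0 < c ^ n := by positivity
      linarith
  · rintro p ⟨hp1, hp2⟩ h ⟨hh1, hh2⟩
    have h1 : FF b p h₀ ≤ FF b p h := hh2 h₀ ((hmem h₀).1 hh₀)
    have h2 : dt b h ≤ dt b h₀ := hmax' h hh1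
    have h3 : ∏ i, h i p ≤ ‖p‖ ^ n := by
      refine (le_abs_self _).trans ?_
      rw [Finset.abs_prod]
      calc ∏ i, |h i p| ≤ ∏ _i : Fin n, ‖p‖ := by
            refine Finset.prod_le_prod (fun i _ => abs_nonneg _) fun i _ => ?_
            have := (h i).le_of_opNorm_le (hh1 i) p
            rwa [one_mul] at this
        _ = ‖p‖ ^ n := by simp
    unfold FF at h1 hp2
    constructor
    · linarith
    · linarith

end Pool.Agent.Q154.KS
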