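import Pool.Agent.Q154.KS.FA

/-!
# GA of the KS project: systems exist for every axis and every constant
-/

set_option autoImplicit false

namespace Pool.Agent.Q154.KS

open Module Filter Topology Pool.Agent.Q264.KS

universe u

section
variable {X : Type u} [NormedAddCommGroup X] [NormedSpace ℝ X] {n : ℕ}

/-- the vectors of the dual basis -/
lemma exists_e (b : Basis (Fin n) ℝ X) (h : Fin n → X →L[ℝ] ℝ) (hd : dt b h ≠ 0) (i : Fin n) :
    ∃ e : X, (∀ h' : X →L[ℝ] ℝ, dt b (Function.update h i h') = dt b h * h' e) ∧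
      h i e = 1 ∧ ∀ k, k ≠ i → h k e = 0 := by
  let M : Matrix (Fin n) (Fin n) ℝ := Matrix.of fun i j => h i (b j)
  have hM : M.det = dt b h := rfl
  have hup : ∀ h' : X →L[ℝ] ℝ, dt b (Function.update h i h') =
      (M.updateRow i fun j => h' (b j)).det := by
    intro h'
    unfold dt
    congr 1
    ext k j
    by_cases hk : k = i
    · subst hk
      simp
    · simp [Function.update_of_ne hk, Matrix.updateRow_ne hk, M]
  have key : ∀ h' : X →L[ℝ] ℝ, dt b (Function.update h i h') =
      dt b h * h' (∑ j, ((dt b h)⁻¹ * (Matrix.adjugate M.transpose) i j) • b j) := by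
    intro h'
    rw [hup, ← Matrix.cramer_transpose_apply, Matrix.cramer_eq_adjugate_mulVec, map_sum,
      Finset.mul_sum]
    simp only [Matrix.mulVec, dotProduct]
    refine Finset.sum_congr rfl fun j _ => ?_
    rw [map_smul, smul_eq_mul]
    field_simp
  refine ⟨_, key, ?_, fun k hk => ?_⟩
  · have h1 := key (h i)
    rw [Function.update_eq_self] at h1
    exact (mul_left_cancel₀ hd (h1.symm.trans (mul_one _).symm))
  · have h1 := key (h k)
    have h2 : dt b (Function.update h i (h k)) = 0 := by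
      rw [hup]
      refine Matrix.det_zero_of_row_eq (i := i) (j := k) (Ne.symm hk) ?_
      ext j
      rw [Matrix.updateRow_self, Matrix.updateRow_ne hk]
      rfl
    rw [h2] at h1
    exact (mul_eq_zero.1 h1.symm).resolve_left hd

lemma deriv_le (α β a : ℝ) (ha : 0 < a)
    (h : ∀ t : ℝ, 0 < t → t ≤ 1 → |1 + t * α| * |1 + t * β| ^ a ≤ 1) : α + a * β ≤ 0 := by
  have h1 : ∀ᶠ t in 𝓝[>] (0 : ℝ), α / (1 + t * α) + a * (β / (1 + t * β)) ≤ 0 := by
    have c1 : ∀ᶠ t in 𝓝 (0 : ℝ), 0 < 1 + t * α := by
      have : ContinuousAt (fun t : ℝ => 1 + t * α) 0 := by fun_prop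
      simpa using this.eventually (lt_mem_nhds (by simp))
    have c2 : ∀ᶠ t in 𝓝 (0 : ℝ), 0 < 1 + t * β := by
      have : ContinuousAt (fun t : ℝ => 1 + t * β) 0 := by fun_prop
      simpa using this.eventually (lt_mem_nhds (by simp))
    have c3 : ∀ᶠ t in 𝓝[>] (0 : ℝ), 0 < t := self_mem_nhdsWithin
    have c4 : ∀ᶠ t in 𝓝[>] (0 : ℝ), t < 1 := mem_nhdsWithin_of_mem_nhds (Iio_mem_nhds one_pos)
    filter_upwards [mem_nhdsWithin_of_mem_nhds c1, mem_nhdsWithin_of_mem_nhds c2, c3, c4]
      with t h1 h2 h3 h4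
    have h1' : 0 < 1 + t * α := h1
    have h2' : 0 < 1 + t * β := h2
    have h5 := h t h3 h4.le
    rw [abs_of_pos h1', abs_of_pos h2'] at h5
    have h6 : Real.log (1 + t * α) + a * Real.log (1 + t * β) ≤ 0 := by
      rw [← Real.log_rpow h2', ← Real.log_mul h1'.ne' (Real.rpow_pos_of_pos h2' a).ne']
      exact Real.log_nonpos (by positivity) h5
    have h7 := Real.one_sub_inv_le_log_of_pos h1'
    have h8 := Real.one_sub_inv_le_log_of_pos h2'
    have h9 : 1 - (1 + t * α)⁻¹ = t * (α / (1 + t * α)) := by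
      field_simp
      ring
    have h10 : 1 - (1 + t * β)⁻¹ = t * (β / (1 + t * β)) := by
      field_simp
      ring
    have h11 : t * (α / (1 + t * α) + a * (β / (1 + t * β))) ≤ 0 := by
      rw [h9] at h7
      rw [h10] at h8
      nlinarith [mul_le_mul_of_nonneg_left h8 ha.le]
    by_contra hcon
    push Not at hcon
    exact absurd h11 (not_le.2 (mul_pos h3 hcon))
  have h2 : Tendsto (fun t : ℝ => α / (1 + t * α) + a * (β / (1 + t * β))) (𝓝[>] 0)
      (𝓝 (α + a * β)) := by
    have c : ContinuousAt (fun t : ℝ => α / (1 + t * α) + a * (β / (1 + t * β))) 0 := by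
      have d1 : (1 : ℝ) + 0 * α ≠ 0 := by simp
      have d2 : (1 : ℝ) + 0 * β ≠ 0 := by simp
      refine ContinuousAt.add (ContinuousAt.div continuousAt_const (by fun_prop) d1)
        (ContinuousAt.mul continuousAt_const (ContinuousAt.div continuousAt_const (by fun_prop) d2))
    have := c.tendsto
    simp only [zero_mul, add_zero, div_one] at this
    exact this.mono_left nhdsWithin_le_nhds
  exact le_of_tendsto h2 h1

lemma exists_start (b : Basis (Fin n) ℝ X) [FiniteDimensional ℝ X] (p : X) (hp : p ≠ 0) :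
    ∃ h : Fin n → X →L[ℝ] ℝ, (∀ i, ‖h i‖ ≤ 1) ∧ dt b h ≠ 0 ∧ ∀ i, h i p ≠ 0 := by
  classical
  let c : Fin n → X →L[ℝ] ℝ := fun i => LinearMap.toContinuousLinearMap (b.coord i)
  have hc : ∀ i x, c i x = b.repr x i := fun i x => rfl
  obtain ⟨i0, hi0⟩ : ∃ i, c i p ≠ 0 := by
    by_contra hcon
    push Not at hcon
    apply hp
    apply b.repr.injective
    rw [map_zero]
    ext i
    exact hcon i
  let g : Fin n → X →L[ℝ] ℝ := fun i => if c i p = 0 then c i + c i0 else c i
  have hg : ∀ i, g i p ≠ 0 := by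
    intro i
    by_cases h : c i p = 0
    · simp only [g, if_pos h, ContinuousLinearMap.add_apply, h, zero_add]
      exact hi0
    · simp only [g, if_neg h]
      exact h
  have hdet : dt b g ≠ 0 := by
    intro h0
    obtain ⟨v, hv, hv2⟩ := Matrix.exists_mulVec_eq_zero_iff.2 h0
    have e1 : ∀ i, g i (∑ j, v j • b j) = 0 := by
      intro i
      have := congrFun hv2 i
      rw [map_sum]
      simpa [Matrix.mulVec, dotProduct, mul_comm] using this
    have e2 : ∀ i, c i (∑ j, v j • b j) = v i := by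
      intro i
      rw [hc, b.repr_sum_self]
    have e3 : v i0 = 0 := by
      have := e1 i0
      simp only [g, if_neg hi0] at this
      rw [← e2, this]
    apply hv
    ext i
    have := e1 i
    by_cases h : c i p = 0
    · simp only [g, if_pos h, ContinuousLinearMap.add_apply] at this
      rw [e2, e2, e3, add_zero] at this
      exact this
    · simp only [g, if_neg h] at this
      rw [e2] at this
      exact this
  let t : ℝ := (1 + ∑ i, ‖g i‖)⁻¹
  have h0 : 0 ≤ ∑ i, ‖g i‖ := Finset.sum_nonneg fun i _ => norm_nonneg _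
  have ht : 0 < t := inv_pos.2 (by linarith)
  refine ⟨fun i => t • g i, fun i => ?_, ?_, fun i => ?_⟩
  · rw [norm_smul, Real.norm_of_nonneg ht.le]
    have h1 : ‖g i‖ ≤ ∑ i, ‖g i‖ :=
      Finset.single_le_sum (f := fun i => ‖g i‖) (fun i _ => norm_nonneg _) (Finset.mem_univ i)
    have h2 : t * (1 + ∑ i, ‖g i‖) = 1 := inv_mul_cancel₀ (by linarith)
    nlinarith
  · have h1 : dt b (fun i => t • g i) = t ^ n * dt b g := by
      unfold dt
      have h2 : (Matrix.of fun i j => (t • g i) (b j)) =
          t • (Matrix.of fun i j => g i (b j) : Matrix (Fin n) (Fin n) ℝ) := by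
        ext i j
        simp
      rw [h2, Matrix.det_smul]
      simp
    rw [h1]
    exact mul_ne_zero (pow_ne_zero _ ht.ne') hdet
  · show t * g i p ≠ 0
    exact mul_ne_zero ht.ne' (hg i)

end

theorem t_GA : S_GA.{u} := by
  intro X _ _ _ n hfin hn p κ hp hκ0 hκ1
  classical
  let b : Basis (Fin n) ℝ X := Module.finBasisOfFinrankEq ℝ X hfin
  let a : ℝ := κ / (1 - κ)
  have hκ2 : 0 < 1 - κ := by linarith
  have ha : 0 < a := div_pos hκ0 hκ2
  have ha1 : (1 + a)⁻¹ * a = κ := by
    show (1 + κ / (1 - κ))⁻¹ * (κ / (1 - κ)) = κ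
    have : 1 + κ / (1 - κ) = 1 / (1 - κ) := by
      field_simp
      ring
    rw [this]
    field_simp
  have hpr : ProperSpace (Fin n → X →L[ℝ] ℝ) := FiniteDimensional.proper_real _
  have hK : IsCompact (Metric.closedBall (0 : Fin n → X →L[ℝ] ℝ) 1) := isCompact_closedBall _ _
  have hmem : ∀ h : Fin n → X →L[ℝ] ℝ,
      h ∈ Metric.closedBall (0 : Fin n → X →L[ℝ] ℝ) 1 ↔ ∀ i, ‖h i‖ ≤ 1 := by
    intro h
    rw [mem_closedBall_zero_iff, pi_norm_le_iff_of_nonneg zero_le_one]
  let G : (Fin n → X →L[ℝ] ℝ) → ℝ := fun h => |dt b h| * (∏ i, |h i p|) ^ a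
  have hG : Continuous G := by
    refine (cont_dt b).abs.mul (Continuous.rpow_const ?_ fun _ => Or.inr ha.le)
    refine continuous_finsetProd _ fun i _ => ?_
    exact ((ContinuousLinearMap.apply ℝ ℝ p).continuous.comp (continuous_apply i)).abs
  obtain ⟨h, hh, hmax⟩ := hK.exists_isMaxOn ⟨0, by simp⟩ hG.continuousOn
  have hmax' : ∀ h' : Fin n → X →L[ℝ] ℝ, (∀ i, ‖h' i‖ ≤ 1) → G h' ≤ G h :=
    fun h' hh' => hmax ((hmem h').2 hh')
  have hh1 := (hmem h).1 hh
  have hGpos : 0 < G h := by
    obtain ⟨h₁, e1, e2, e3⟩ := exists_start b p hp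
    refine lt_of_lt_of_le ?_ (hmax' h₁ e1)
    refine mul_pos (abs_pos.2 e2) (Real.rpow_pos_of_pos ?_ a)
    exact Finset.prod_pos fun i _ => abs_pos.2 (e3 i)
  have hd : dt b h ≠ 0 := by
    intro h0
    simp only [G, h0, abs_zero, zero_mul, lt_irrefl] at hGpos
  have hη : ∀ i, h i p ≠ 0 := by
    intro i h0
    have : ∏ i, |h i p| = 0 := Finset.prod_eq_zero (Finset.mem_univ i) (by simp [h0])
    simp only [G, this, Real.zero_rpow ha.ne', mul_zero, lt_irrefl] at hGpos
  have hPi : 0 < ∏ i, |h i p| := Finset.prod_pos fun i _ => abs_pos.2 (hη i)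
  choose e he1 he2 he3 using fun i => exists_e b h hd i
  let w : Fin n → X := fun i => e i + (a / h i p) • p
  have hw1 : ∀ i (h' : X →L[ℝ] ℝ), ‖h'‖ ≤ 1 → h' (w i) ≤ 1 + a := by
    intro i h' hh'
    have h1 : (h' (e i) - 1) + a * (h' p / h i p - 1) ≤ 0 := by
      refine deriv_le _ _ a ha fun t ht0 ht1 => ?_
      let f : X →L[ℝ] ℝ := (1 - t) • h i + t • h'
      have hf : ‖f‖ ≤ 1 := by
        refine (norm_add_le _ _).trans ?_
        rw [norm_smul, norm_smul, Real.norm_of_nonneg (by linarith : (0 : ℝ) ≤ 1 - t),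
          Real.norm_of_nonneg ht0.le]
        nlinarith [hh1 i, hh', norm_nonneg (h i), norm_nonneg h']
      have h2 := hmax' (Function.update h i f) (by
        intro k
        by_cases hk : k = i
        · subst hk; simpa using hf
        · rw [Function.update_of_ne hk]; exact hh1 k)
      have h3 : dt b (Function.update h i f) = dt b h * (1 + t * (h' (e i) - 1)) := by
        rw [he1]
        congr 1
        show (1 - t) * h i (e i) + t * h' (e i) = _
        rw [he2]
        ring
      have h4 : ∏ k, |Function.update h i f k p| =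
          |1 + t * (h' p / h i p - 1)| * ∏ k, |h k p| := by
        rw [← Finset.mul_prod_erase Finset.univ _ (Finset.mem_univ i),
          ← Finset.mul_prod_erase Finset.univ (fun k => |h k p|) (Finset.mem_univ i), ← mul_assoc]
        congr 1
        · rw [Function.update_self, ← abs_mul]
          congr 1
          show (1 - t) * h i p + t * h' p = _
          have := hη i
          field_simp
          ring
        · refine Finset.prod_congr rfl fun k hk => ?_
          rw [Function.update_of_ne (Finset.ne_of_mem_erase hk)]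
      simp only [G] at h2
      rw [h3, h4, abs_mul, Real.mul_rpow (abs_nonneg _) hPi.le] at h2
      have h5 : 0 < |dt b h| * (∏ k, |h k p|) ^ a := hGpos
      have h6 : (|1 + t * (h' (e i) - 1)| * |1 + t * (h' p / h i p - 1)| ^ a) *
          (|dt b h| * (∏ k, |h k p|) ^ a) ≤ 1 * (|dt b h| * (∏ k, |h k p|) ^ a) := by
        rw [one_mul]
        refine le_trans (le_of_eq ?_) h2
        ring
      exact le_of_mul_le_mul_right h6 h5
    have h7 : h' (w i) = h' (e i) + a * (h' p / h i p) := by
      show h' (e i + (a / h i p) • p) = _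
      rw [map_add, map_smul, smul_eq_mul]
      ring
    rw [h7]
    linarith
  have hw2 : ∀ i, h i (w i) = 1 + a := by
    intro i
    show h i (e i + (a / h i p) • p) = _
    rw [map_add, map_smul, smul_eq_mul, he2, div_mul_cancel₀ _ (hη i)]
  have hw3 : ∀ i, ‖w i‖ = 1 + a := by
    intro i
    apply le_antisymm
    · obtain ⟨g, hg1, hg2⟩ := exists_dual_vector'' ℝ (w i)
      have := hw1 i g hg1
      rw [hg2] at this
      exact this
    · rw [← hw2 i]
      refine (le_abs_self _).trans ?_
      have := (h i).le_of_opNorm_le (hh1 i) (w i)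
      rwa [one_mul] at this
  have hw4 : ∀ k i, k ≠ i → h k (w i) = a * h k p / h i p := by
    intro k i hk
    show h k (e i + (a / h i p) • p) = _
    rw [map_add, map_smul, smul_eq_mul, he3 i k hk, zero_add]
    ring
  have h1a : (0 : ℝ) < 1 + a := by linarith
  refine ⟨fun i => (1 + a)⁻¹ • w i, h, ?_, ?_, ?_, hη, ?_, ?_⟩
  · intro i y
    refine (le_abs_self _).trans ?_
    have := (h i).le_of_opNorm_le (hh1 i) y
    rwa [one_mul] at this
  · intro i
    rw [norm_smul, hw3, Real.norm_of_nonneg (inv_pos.2 h1a).le, inv_mul_cancel₀ h1a.ne']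
  · intro i
    rw [map_smul, smul_eq_mul, hw2, inv_mul_cancel₀ h1a.ne']
  · intro k i hk
    rw [map_smul, smul_eq_mul, hw4 k i hk, ← ha1]
    ring
  · rw [Fintype.linearIndependent_iff]
    intro g hg i
    have h1 := congrArg (fun f : X →L[ℝ] ℝ => f (e i)) hg
    simp only [ContinuousLinearMap.coe_sum', Finset.sum_apply, ContinuousLinearMap.coe_smul',
      Pi.smul_apply, smul_eq_mul, ContinuousLinearMap.zero_apply] at h1
    rw [Finset.sum_eq_single i (fun k _ hk => by rw [he3 i k hk, mul_zero])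
      (fun h => absurd (Finset.mem_univ i) h), he2, mul_one] at h1
    exact h1

end Pool.Agent.Q154.KS
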